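import Pool.Agent.H6.Bk2

set_option autoImplicit false

namespace Pool.Agent.Results.MP_a60869_co.Books

lemma sum_Icc (a : ℕ) : ∀ l : ℕ, 2 * (Finset.Icc (a + 1) (a + l)).val.sum = l * (2 * a + l + 1)
  | 0 => by simp
  | l + 1 => by
    have ih := sum_Icc a l
    have e : ∀ s : Finset ℕ, s.val.sum = ∑ i ∈ s, i := fun s => by
      rw [Finset.sum_eq_multiset_sum, Multiset.map_id']
    rw [e] at ih ⊢
    rw [← add_assoc, Finset.sum_Icc_succ_top (by omega)]
    nlinarith

lemma arith (k S σ : ℤ) (h : 2 * (6 * k + 4) * σ = 4 * k * S + 2 * (4 * k + 4) * (4 * k + 5) +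
    (6 * k + 4) * (14 * k + 13)) : k % 4 = 2 := by
  obtain ⟨j, hj⟩ : ∃ j, k = 4 * j ∨ k = 4 * j + 1 ∨ k = 4 * j + 2 ∨ k = 4 * j + 3 :=
    ⟨k / 4, by omega⟩
  rcases hj with rfl | rfl | rfl | rfl <;> ring_nf at h <;> omega

/-- For `n ≥ 5` the book `B_n` is super edge-magic iff `n` is even or `n ≡ 5 (mod 8)`.
Vertices: the spine ends (labels `a`, `b`) and the page vertices `x i` (joined to `a`) and
`y i` (joined to `b`).  Edges: the spine (label `c`), `a x_i` (label `p i`), `b y_i` (label `q i`)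
and `x_i y_i` (label `r i`). -/
theorem result (n : ℕ) (h5 : 5 ≤ n) :
    (∃ (a b c σ : ℕ) (x y p q r : Fin n → ℕ),
      {a} + {b} + Finset.univ.val.map x + Finset.univ.val.map y =
        (Finset.Icc 1 (2 * n + 2)).val ∧
      {c} + Finset.univ.val.map p + Finset.univ.val.map q + Finset.univ.val.map r =
        (Finset.Icc (2 * n + 2 + 1) (2 * n + 2 + (3 * n + 1))).val ∧
      a + b + c = σ ∧
      ∀ i, a + x i + p i = σ ∧ b + y i + q i = σ ∧ x i + y i + r i = σ) ↔
    (Even n ∨ n % 8 = 5) := by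
  refine ⟨?_, fun h => ?_⟩
  · rintro ⟨a, b, c, σ, x, y, p, q, r, h1, h2, h3, h4⟩
    rcases Nat.even_or_odd' n with ⟨k, rfl | rfl⟩
    · exact Or.inl (even_two_mul k)
    right
    have s1 := sum_Icc 0 (2 * (2 * k + 1) + 2)
    have s2 := sum_Icc (2 * (2 * k + 1) + 2) (3 * (2 * k + 1) + 1)
    rw [zero_add, zero_add, ← h1] at s1
    rw [← h2] at s2
    simp only [Multiset.sum_add, Multiset.sum_singleton, ← Finset.sum_eq_multiset_sum] at s1 s2
    have t1 := Finset.sum_congr rfl fun i (_ : i ∈ Finset.univ) => (h4 i).1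
    have t2 := Finset.sum_congr rfl fun i (_ : i ∈ Finset.univ) => (h4 i).2.1
    have t3 := Finset.sum_congr rfl fun i (_ : i ∈ Finset.univ) => (h4 i).2.2
    simp only [Finset.sum_add_distrib, Finset.sum_const, Finset.card_univ, Fintype.card_fin,
      smul_eq_mul] at t1 t2 t3
    have := arith k (a + b) σ (by
      zify at s1 s2 t1 t2 t3 h3
      linear_combination s2 + 2 * s1 - 2 * t1 - 2 * t2 - 2 * t3 - 2 * h3)
    omega
  obtain ⟨a, b, s, x, y, h1, h2⟩ := Pool.Agent.H6.Bk.main n h5 (by rwa [Nat.even_iff] at h)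
  have m : ∀ t, t ∈ Multiset.Ico s (s + (3 * n + 1)) → t ≤ s + 5 * n + 3 := fun t ht => by
    rw [Multiset.mem_Ico] at ht; omega
  rw [← h2] at m
  simp only [Multiset.mem_add, Multiset.mem_singleton, Multiset.mem_map, Finset.mem_val,
    Finset.mem_univ, true_and] at m
  refine ⟨a, b, s + 5 * n + 3 - (a + b), s + 5 * n + 3, x, y, fun i => s + 5 * n + 3 - (a + x i),
    fun i => s + 5 * n + 3 - (b + y i), fun i => s + 5 * n + 3 - (x i + y i), ?_, ?_, ?_, fun i => ?_⟩
  · rw [add_assoc, add_assoc, h1]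
    rfl
  · have h3 := congrArg (Multiset.map fun t => s + 5 * n + 3 - t) h2
    simp only [Multiset.map_add, Multiset.map_singleton, Multiset.map_map, Function.comp_def] at h3
    rw [add_assoc, add_assoc, ← add_assoc (Multiset.map _ _), h3]
    refine (Multiset.Nodup.ext (Multiset.Nodup.map_on (fun u hu v hv e => ?_) Multiset.nodup_Ico)
      (Finset.nodup _)).2 fun t => ?_
    · rw [Multiset.mem_Ico] at hu hv
      omega
    · simp only [Multiset.mem_map, Multiset.mem_Ico, Finset.mem_val, Finset.mem_Icc]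
      constructor
      · rintro ⟨u, hu, rfl⟩
        omega
      · intro ht
        exact ⟨s + 5 * n + 3 - t, by omega, by omega⟩
  · have := m _ (Or.inl rfl)
    omega
  · have a1 := m _ (Or.inr (Or.inl (Or.inl ⟨i, rfl⟩)))
    have a2 := m _ (Or.inr (Or.inl (Or.inr ⟨i, rfl⟩)))
    have a3 := m _ (Or.inr (Or.inr ⟨i, rfl⟩))
    beta_reduce
    omega

end Pool.Agent.Results.MP_a60869_co.Books
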